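import Pool.Agent.Run7.h800.RG.Stm

/-!
# Project RG (helper800), piece ADA: the compensator is adapted

Author: helper805.
-/

set_option autoImplicit false

namespace Run7.h805.RG

open MeasureTheory ProbabilityTheory Set Filter Topology Run7.h800.RG
open scoped ENNReal NNReal

lemma NN_pos (n : ℕ) : 0 < NN n := by
  induction n with
  | zero => simp [NN]
  | succ n ih => simp only [NN, mm]; positivity

lemma meas_ix (n : ℕ) : Measurable (ix n) := by
  unfold ix
  exact Nat.measurable_floor.comp (measurable_id.mul_const _)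

/-- if `i < ix n u` then `gt n (i + 1) ≤ u` -/
lemma gt_le {n i : ℕ} {u : ℝ} (h : i < ix n u) : ((gt n (i + 1) : ℝ≥0) : ℝ) ≤ u := by
  have hN : (0 : ℝ) < NN n := by exact_mod_cast NN_pos n
  unfold ix at h
  have h0 : 0 ≤ u * (NN n : ℝ) := by
    by_contra hc
    rw [Nat.floor_of_nonpos (le_of_lt (not_le.1 hc))] at h
    omega
  have h1 : ((i + 1 : ℕ) : ℝ) ≤ u * (NN n : ℝ) := (Nat.le_floor_iff h0).1 h
  unfold gt
  push_cast at h1 ⊢
  rw [div_le_iff₀ hN]
  exact h1

/-- The measurability statement, for an abstract space of paths. -/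
lemma core {Ω : Type} [mF : MeasurableSpace Ω] (t : ℝ≥0) (d : ℕ → ℕ → Ω → ℝ)
    (hd : ∀ n i, gt n (i + 1) ≤ t → Measurable (d n i)) (b : ℝ × Ω → ℝ)
    (hb : @Measurable (ℝ × Ω) ℝ (⨆ n, MeasurableSpace.comap (fun p : ℝ × Ω =>
      ((ix n p.1, fun i => if i < ix n p.1 then d n i p.2 else 0) : ℕ × (ℕ → ℝ)))
        inferInstance) _ b) :
    Measurable (fun ω => (∫⁻ u, ENNReal.ofReal
      ((Ico (0 : ℝ) (min t 1)).indicator (fun u => b (u, ω)) u)).toReal) := by
  set S : Set (ℝ × Ω) := {p | p.1 < t} with hSdef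
  have hS : MeasurableSet S := measurableSet_lt measurable_fst measurable_const
  have hΦ : ∀ n, Measurable (fun p : S => ((ix n p.1.1,
      fun i => if i < ix n p.1.1 then d n i p.1.2 else 0) : ℕ × (ℕ → ℝ))) := by
    intro n
    have hix : Measurable (fun p : S => ix n p.1.1) :=
      (meas_ix n).comp (measurable_fst.comp measurable_subtype_coe)
    refine Measurable.prodMk hix (measurable_pi_lambda _ fun i => ?_)
    by_cases h : gt n (i + 1) ≤ t
    · exact Measurable.ite (measurableSet_lt measurable_const hix)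
        ((hd n i h).comp (measurable_snd.comp measurable_subtype_coe)) measurable_const
    · have : (fun p : S => if i < ix n p.1.1 then d n i p.1.2 else 0) = fun _ => 0 := by
        funext p
        rw [if_neg]
        intro hi
        apply h
        have h1 := gt_le hi
        have h2 : p.1.1 < t := p.2
        exact_mod_cast (h1.trans_lt h2).le
      rw [this]
      exact measurable_const
  have hval : @Measurable S (ℝ × Ω) _ (⨆ n, MeasurableSpace.comap (fun p : ℝ × Ω =>
      ((ix n p.1, fun i => if i < ix n p.1 then d n i p.2 else 0) : ℕ × (ℕ → ℝ)))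
        inferInstance) Subtype.val := by
    rw [measurable_iff_comap_le, MeasurableSpace.comap_iSup]
    refine iSup_le fun n => ?_
    rw [MeasurableSpace.comap_comp]
    exact measurable_iff_comap_le.1 (hΦ n)
  have hf : Measurable (S.indicator b) := by
    refine measurable_of_restrict_of_restrict_compl hS ?_ ?_
    · have : S.domRestrict (S.indicator b) = b ∘ Subtype.val := by
        funext p
        simp [Set.domRestrict, p.2]
      rw [this]
      exact hb.comp hval
    · have : Sᶜ.domRestrict (S.indicator b) = fun _ => 0 := by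
        funext p
        have : (p : ℝ × Ω) ∉ S := p.2
        simp [Set.domRestrict, this]
      rw [this]
      exact measurable_const
  have hI : MeasurableSet {p : ℝ × Ω | p.1 ∈ Ico (0 : ℝ) (min t 1)} :=
    measurable_fst measurableSet_Ico
  have hg : Measurable (fun p : ℝ × Ω => ENNReal.ofReal
      ((Ico (0 : ℝ) (min t 1)).indicator (fun u => b (u, p.2)) p.1)) := by
    have : (fun p : ℝ × Ω => (Ico (0 : ℝ) (min t 1)).indicator (fun u => b (u, p.2)) p.1) =
        {p : ℝ × Ω | p.1 ∈ Ico (0 : ℝ) (min t 1)}.indicator (S.indicator b) := by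
      funext p
      by_cases hp : p.1 ∈ Ico (0 : ℝ) (min t 1)
      · have hpS : p ∈ S := lt_of_lt_of_le hp.2 (min_le_left _ _)
        rw [Set.indicator_of_mem hp, Set.indicator_of_mem (show p ∈ {p : ℝ × Ω | p.1 ∈
          Ico (0 : ℝ) (min t 1)} from hp), Set.indicator_of_mem hpS]
      · rw [Set.indicator_of_notMem hp, Set.indicator_of_notMem (show p ∉ {p : ℝ × Ω | p.1 ∈
          Ico (0 : ℝ) (min t 1)} from hp)]
    refine ENNReal.measurable_ofReal.comp ?_
    rw [this]
    exact hf.indicator hI
  exact (Measurable.lintegral_prod_left' hg).ennreal_toReal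

theorem t_ADA : S_FIL → S_GDB → S_ADA := by
  intro _ hG Ω₀ m PB W hB b hb t
  obtain ⟨-, hnull, -⟩ := hG Ω₀ m PB W hB b hb
  have hM : ∀ s : ℝ≥0, s ≤ t → Measurable[F0 W t] (M W s) := by
    intro s hs
    rw [measurable_iff_comap_le]
    exact le_iSup₂_of_le s hs le_rfl
  have hd : ∀ n i, gt n (i + 1) ≤ t → Measurable[F0 W t] (dM W n i) := by
    intro n i h
    have h2 : gt n i ≤ t := by
      refine le_trans ?_ h
      unfold gt
      gcongr
      simp
    exact (hM _ h).sub (hM _ h2)
  refine ⟨fun ω => (∫⁻ u, ENNReal.ofReal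
      ((Ico (0 : ℝ) (min t 1)).indicator (fun u => b (u, ω)) u)).toReal,
    @core (Ω₀ × ℝ) (F0 W t) t (dM W) hd b hb.meas, ?_⟩
  have hae : ∀ᵐ ω ∂(PB.prod PE), ω ∈ Gd b := by
    rw [ae_iff]
    exact hnull
  filter_upwards [hae] with ω hω
  unfold a
  rw [if_pos hω]
  have hint : IntegrableOn (fun u => b (u, ω)) (Ico 0 1) volume := hω
  have hint' : IntegrableOn (fun u => b (u, ω)) (Ico 0 (min t 1)) volume :=
    hint.mono_set (Ico_subset_Ico_right (min_le_right _ _))
  rw [integral_eq_lintegral_of_nonneg_ae (ae_of_all _ fun u => hb.nonneg _)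
    hint'.aestronglyMeasurable, ← lintegral_indicator measurableSet_Ico]
  congr 2
  funext u
  by_cases hu : u ∈ Ico (0 : ℝ) (min t 1)
  · rw [Set.indicator_of_mem hu, Set.indicator_of_mem hu]
  · rw [Set.indicator_of_notMem hu, Set.indicator_of_notMem hu, ENNReal.ofReal_zero]

end Run7.h805.RG
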